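import Pool.Agent.Helper50.MB.Goals

/-!
# Project MB, packet AN3: from good scales to all `n`.
-/

set_option autoImplicit false

namespace Pool.Agent.Helper91.MB

open Finset Pool.Agent.Helper50.MB

/-- `√n log n`. -/
noncomputable def s (n : ℕ) : ℝ := Real.sqrt n * Real.log n

theorem s_nonneg (n : ℕ) : 0 ≤ s n := by
  unfold s
  exact mul_nonneg (Real.sqrt_nonneg _) (Real.log_natCast_nonneg n)

theorem s_mono {m n : ℕ} (h : m ≤ n) : s m ≤ s n := by
  rcases Nat.eq_zero_or_pos m with h0 | h0
  · have : s m = 0 := by rw [h0]; simp [s]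
    rw [this]
    exact s_nonneg n
  · unfold s
    have hm : (0 : ℝ) < m := by exact_mod_cast h0
    have hmn : (m : ℝ) ≤ n := by exact_mod_cast h
    exact mul_le_mul (Real.sqrt_le_sqrt hmn) (Real.log_le_log hm hmn)
      (Real.log_natCast_nonneg m) (Real.sqrt_nonneg _)

theorem s_half {m n : ℕ} (h : 2 * m ≤ n) : s m ≤ 3 / 4 * s n := by
  rcases Nat.eq_zero_or_pos m with h0 | h0
  · have : s m = 0 := by rw [h0]; simp [s]
    rw [this]
    have := s_nonneg n
    linarith
  · unfold s
    have hm : (0 : ℝ) < m := by exact_mod_cast h0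
    have hmn : 2 * (m : ℝ) ≤ n := by exact_mod_cast h
    have h1 : Real.sqrt m ≤ 3 / 4 * Real.sqrt n := by
      rw [Real.sqrt_le_left (by positivity)]
      rw [mul_pow, Real.sq_sqrt (by positivity)]
      nlinarith
    have h2 : Real.log m ≤ Real.log n := Real.log_le_log hm (by linarith)
    calc Real.sqrt m * Real.log m ≤ (3 / 4 * Real.sqrt n) * Real.log n :=
          mul_le_mul h1 h2 (Real.log_natCast_nonneg m) (by positivity)
      _ = 3 / 4 * (Real.sqrt n * Real.log n) := by ring

theorem sub_mul {g : ℕ → ℝ} (hs : ∀ m n, g (m + n) ≤ g m + g n) (q n : ℕ) :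
    g ((q + 1) * n) ≤ (q + 1) * g n := by
  induction q with
  | zero => simp
  | succ q ih =>
    have h1 : (q + 1 + 1) * n = (q + 1) * n + n := by ring
    rw [h1]
    push_cast
    have := hs ((q + 1) * n) n
    linarith

theorem goalAN3 : AN3 := by
  intro g hg hsub hgood
  obtain ⟨K, x0, hK, hgood⟩ := hgood
  set n1 : ℕ := 64 * (x0 + 1) with hn1
  set C0 : ℝ := ∑ k ∈ range (n1 + 1), g k with hC0
  have hC0n : 0 ≤ C0 := sum_nonneg fun k _ ↦ hg k
  have hsmall : ∀ k ≤ n1, g k ≤ C0 := fun k hk ↦
    single_le_sum (f := g) (fun k _ ↦ hg k) (mem_range.2 (by omega))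
  have key : ∀ n : ℕ, g n ≤ 256 * K * s n + C0 := by
    intro n
    induction n using Nat.strong_induction_on with
    | _ n ih =>
      rcases Nat.lt_or_ge n1 n with h | h
      · obtain ⟨n', h1, h2, h3⟩ := hgood (n / 32) (by omega)
        have h3' : g n' ≤ K * s n' := h3
        have hn'pos : 0 < n' := by omega
        have hdm := Nat.div_add_mod n n'
        set q := n / n' with hq
        set r := n % n' with hr
        have hrlt : r < n' := Nat.mod_lt _ hn'pos
        have hn'2 : 2 * n' ≤ n := by omega
        have hq1 : 1 ≤ q := (Nat.le_div_iff_mul_le hn'pos).2 (by omega)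
        have hq64 : q ≤ 64 := by
          have h5 : q * n' ≤ n := Nat.div_mul_le_self n n'
          by_contra hlt
          push Not at hlt
          have h6 : 65 * n' ≤ q * n' := Nat.mul_le_mul_right n' hlt
          omega
        obtain ⟨j, hj⟩ : ∃ j, q = j + 1 := ⟨q - 1, by omega⟩
        have e1 : g n ≤ g ((j + 1) * n') + g r := by
          have h5 := hsub ((j + 1) * n') r
          have h6 : (j + 1) * n' + r = n := by
            rw [← hj, mul_comm]
            exact hdm
          rwa [h6] at h5
        have e2 : g ((j + 1) * n') ≤ 64 * (K * s n) := by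
          have h5 := sub_mul hsub j n'
          have h6 : ((j : ℝ) + 1) ≤ 64 := by
            have : j + 1 ≤ 64 := by omega
            exact_mod_cast this
          have h7 : g n' ≤ K * s n :=
            h3'.trans (mul_le_mul_of_nonneg_left (s_mono (by omega)) hK.le)
          calc g ((j + 1) * n') ≤ (j + 1) * g n' := h5
            _ ≤ 64 * (K * s n) := mul_le_mul h6 h7 (hg _) (by norm_num)
        have e3 := ih r (by omega)
        have e4 : s r ≤ 3 / 4 * s n := s_half (by omega)
        have e5 : 256 * K * s r ≤ 256 * K * (3 / 4 * s n) :=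
          mul_le_mul_of_nonneg_left e4 (by positivity)
        linarith
      · have h1 := hsmall n h
        have h2 : 0 ≤ 256 * K * s n := mul_nonneg (by positivity) (s_nonneg n)
        linarith
  refine ⟨256 * K + 2 * C0, by positivity, fun n hn ↦ ?_⟩
  have h1 := key n
  have h2 : 1 / 2 ≤ s n := by
    have h3 : s 2 ≤ s n := s_mono hn
    have h4 : 1 / 2 ≤ s 2 := by
      unfold s
      have h5 : (1 : ℝ) ≤ Real.sqrt (2 : ℕ) := by
        rw [Real.one_le_sqrt]
        norm_num
      have h6 : (1 / 2 : ℝ) ≤ Real.log (2 : ℕ) := by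
        have := Real.log_two_gt_d9
        push_cast
        linarith
      calc (1 / 2 : ℝ) = 1 * (1 / 2) := by ring
        _ ≤ Real.sqrt (2 : ℕ) * Real.log (2 : ℕ) :=
          mul_le_mul h5 h6 (by norm_num) (Real.sqrt_nonneg _)
    linarith
  change g n ≤ (256 * K + 2 * C0) * s n
  nlinarith

end Pool.Agent.Helper91.MB
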