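import Pool.Agent.Helper59.MB.Goals4

/-!
# Packet MB-UEC (project MB, MP_49a1ce_an): uniform convergence in uniquely ergodic systems
-/

set_option autoImplicit false

namespace Pool.Agent.Helper91.MB

open MeasureTheory Filter Topology Finset
open Pool.Agent.Helper59.MB
open scoped ENNReal BoundedContinuousFunction

namespace UEC

variable {Y : Type} [MetricSpace Y] [CompactSpace Y] [MeasurableSpace Y] [BorelSpace Y]

/-- the empirical measure of the orbit of `x`, times `1, .., N` -/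
noncomputable def emp (T : Y → Y) (N : ℕ) (x : Y) : Measure Y :=
  ((N : ℝ≥0∞)⁻¹) • ∑ n ∈ Icc 1 N, Measure.dirac (T^[n] x)

theorem emp_prob (T : Y → Y) {N : ℕ} (hN : 0 < N) (x : Y) : IsProbabilityMeasure (emp T N x) := by
  constructor
  have h0 : (N : ℝ≥0∞) ≠ 0 := Nat.cast_ne_zero.2 hN.ne'
  rw [emp, Measure.smul_apply, Measure.finsetSum_apply]
  simp only [measure_univ, Finset.sum_const, Nat.card_Icc, Nat.add_sub_cancel, nsmul_eq_mul, mul_one,
    smul_eq_mul]
  exact ENNReal.inv_mul_cancel h0 (ENNReal.natCast_ne_top N)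

theorem emp_integral (T : Y → Y) (N : ℕ) (x : Y) (g : Y → ℝ) (hg : Continuous g) :
    ∫ y, g y ∂(emp T N x) = (N : ℝ)⁻¹ * ∑ n ∈ Icc 1 N, g (T^[n] x) := by
  rw [emp, integral_smul_measure, integral_finsetSum_measure]
  · rw [ENNReal.toReal_inv, ENNReal.toReal_natCast, smul_eq_mul]
    congr 1
    exact Finset.sum_congr rfl fun n _ => integral_dirac _ _
  · intro n _
    exact integrable_dirac (by simp)

/-- the averages of `g ∘ T` and of `g` are close -/
theorem avg_shift (T : Y → Y) (N : ℕ) (x : Y) (g : Y → ℝ) (C : ℝ) (hC : ∀ y, |g y| ≤ C) :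
    |(N : ℝ)⁻¹ * ∑ n ∈ Icc 1 N, g (T (T^[n] x)) - (N : ℝ)⁻¹ * ∑ n ∈ Icc 1 N, g (T^[n] x)| ≤
      2 * C * (N : ℝ)⁻¹ := by
  have h1 : ∑ n ∈ Icc 1 N, g (T (T^[n] x)) - ∑ n ∈ Icc 1 N, g (T^[n] x) =
      g (T^[N + 1] x) - g (T^[1] x) := by
    induction N with
    | zero => simp
    | succ N ih =>
      rw [Finset.sum_Icc_succ_top (by omega), Finset.sum_Icc_succ_top (by omega)]
      have e : T (T^[N + 1] x) = T^[N + 1 + 1] x := (Function.iterate_succ_apply' T (N + 1) x).symm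
      rw [e]
      linarith
  rw [← mul_sub, h1, abs_mul, abs_of_nonneg (by positivity : (0 : ℝ) ≤ (N : ℝ)⁻¹)]
  have h2 : |g (T^[N + 1] x) - g (T^[1] x)| ≤ 2 * C := by
    have := abs_sub (g (T^[N + 1] x)) (g (T^[1] x))
    have h3 := hC (T^[N + 1] x)
    have h4 := hC (T^[1] x)
    linarith
  calc (N : ℝ)⁻¹ * |g (T^[N + 1] x) - g (T^[1] x)| ≤ (N : ℝ)⁻¹ * (2 * C) :=
        mul_le_mul_of_nonneg_left h2 (by positivity)
    _ = 2 * C * (N : ℝ)⁻¹ := by ring

end UEC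

open UEC

theorem t_UEC : S_UEC := by
  intro Y _ _ _ _ T ν hT hUE f ε hε
  obtain ⟨hprob, hinv, huniq⟩ := hUE
  by_contra hcon
  push Not at hcon
  choose N hN x hx using fun i : ℕ => hcon (i + 1)
  have hNpos : ∀ i, 0 < N i := fun i => lt_of_lt_of_le (Nat.succ_pos i) (hN i)
  set P : ℕ → ProbabilityMeasure Y := fun i => ⟨emp T (N i) (x i), emp_prob T (hNpos i) (x i)⟩ with hP
  obtain ⟨ν', -, hν'⟩ := (isCompact_univ (X := ProbabilityMeasure Y)).ultrafilter_le_nhds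
    (Ultrafilter.map P (hyperfilter ℕ)) (by simp)
  have hlim : Tendsto P (hyperfilter ℕ : Filter ℕ) (𝓝 ν') := hν'
  have hle : (hyperfilter ℕ : Filter ℕ) ≤ atTop := by
    rw [← Nat.cofinite_eq_atTop]
    exact hyperfilter_le_cofinite
  have hlim' : ∀ g : Y →ᵇ ℝ, Tendsto (fun i => (N i : ℝ)⁻¹ * ∑ n ∈ Icc 1 (N i), g (T^[n] (x i)))
      (hyperfilter ℕ : Filter ℕ) (𝓝 (∫ y, g y ∂(ν' : Measure Y))) := by
    intro g
    have h := (ProbabilityMeasure.tendsto_iff_forall_integral_tendsto.1 hlim) g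
    refine h.congr fun i => ?_
    exact emp_integral T (N i) (x i) g g.continuous
  have hNinv : Tendsto (fun i => ((N i : ℕ) : ℝ)⁻¹) (hyperfilter ℕ : Filter ℕ) (𝓝 0) := by
    have h1 : Tendsto N atTop atTop :=
      tendsto_atTop_mono (fun i => le_trans (Nat.le_succ i) (hN i)) tendsto_id
    exact ((tendsto_inv_atTop_zero.comp tendsto_natCast_atTop_atTop).comp h1).mono_left hle
  -- the limit measure is invariant
  have hTm : Measurable T := hT.measurable
  have hinv' : ∀ g : Y →ᵇ ℝ, ∫ y, g (T y) ∂(ν' : Measure Y) = ∫ y, g y ∂(ν' : Measure Y) := by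
    intro g
    have h1 := hlim' (g.compContinuous ⟨T, hT⟩)
    have h2 := hlim' g
    have h3 := h1.sub h2
    have h4 : Tendsto (fun i => (N i : ℝ)⁻¹ * ∑ n ∈ Icc 1 (N i), (g.compContinuous ⟨T, hT⟩) (T^[n] (x i)) -
        (N i : ℝ)⁻¹ * ∑ n ∈ Icc 1 (N i), g (T^[n] (x i))) (hyperfilter ℕ : Filter ℕ) (𝓝 0) := by
      refine squeeze_zero_norm (a := fun i => 2 * ‖g‖ * ((N i : ℕ) : ℝ)⁻¹) (fun i => ?_) ?_
      · rw [Real.norm_eq_abs]
        exact avg_shift T (N i) (x i) g ‖g‖ fun y => g.norm_coe_le_norm y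
      · have := hNinv.const_mul (2 * ‖g‖)
        rwa [mul_zero] at this
    have h5 := tendsto_nhds_unique h3 h4
    exact sub_eq_zero.1 h5
  have hmap : Measure.map T (ν' : Measure Y) = ν' := by
    haveI : IsProbabilityMeasure (Measure.map T (ν' : Measure Y)) :=
      Measure.isProbabilityMeasure_map hTm.aemeasurable
    refine ext_of_forall_integral_eq_of_IsFiniteMeasure fun g => ?_
    rw [integral_map hTm.aemeasurable g.continuous.aestronglyMeasurable]
    exact hinv' g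
  have heq : (ν' : Measure Y) = ν := huniq ν' inferInstance ⟨hTm, hmap⟩
  -- the contradiction
  have h1 := hlim' (BoundedContinuousFunction.mkOfCompact f)
  rw [heq] at h1
  have h2 : ∀ᶠ i in (hyperfilter ℕ : Filter ℕ),
      |(N i : ℝ)⁻¹ * ∑ n ∈ Icc 1 (N i), f (T^[n] (x i)) - ∫ y, f y ∂ν| < ε := by
    have := Metric.tendsto_nhds.1 h1 ε hε
    filter_upwards [this] with i hi
    rwa [Real.dist_eq] at hi
  obtain ⟨i, hi⟩ := h2.exists
  have hNi : (0 : ℝ) < N i := Nat.cast_pos.2 (hNpos i)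
  have h3 := hx i
  have h4 : ∑ n ∈ Icc 1 (N i), f (T^[n] (x i)) - N i * ∫ y, f y ∂ν =
      N i * ((N i : ℝ)⁻¹ * ∑ n ∈ Icc 1 (N i), f (T^[n] (x i)) - ∫ y, f y ∂ν) := by
    rw [mul_sub, mul_inv_cancel_left₀ hNi.ne']
  rw [h4, abs_mul, abs_of_pos hNi] at h3
  have h5 := mul_lt_mul_of_pos_left hi hNi
  linarith

end Pool.Agent.Helper91.MB
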